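import Pool.Agent.H24.FU.Ind
import Pool.Agent.H24.FU.Fp

namespace Pool.Agent.Results.MP_470117_nt.FewPairs

open Filter

/-- Bounds for the number of exceptional pairs of the Feit-Thompson conjecture, that is, pairs of primes
`p < q` for which `(q ^ p - 1) / (q - 1)` divides `(p ^ q - 1) / (p - 1)`.

(1) For every prime `p` at most `C_p x / (log x)^2` primes `q ≤ x` are exceptional with `p`.
(2) For every `c < 1/2` there is `C` such that for all `x ≥ 2` and every prime `2 < p ≤ x ^ c` at most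
`C x / (p log x)` primes `q ≤ x` are exceptional with `p`.
(3) There is `κ > 0` such that for every `c₀ < 1/2` there is `C`: for all `c` in `(0, c₀]` and all large `x`
at most `C c ^ κ π(x)` exceptional pairs have `q ≤ x` and `p ≤ x ^ c`. -/
theorem result :
    (∀ p : ℕ, p.Prime → ∃ C : ℝ, ∀ x : ℕ, 2 ≤ x →
      (({q : ℕ | q.Prime ∧ p < q ∧ q ≤ x ∧ (q ^ p - 1) / (q - 1) ∣ (p ^ q - 1) / (p - 1)}.ncard : ℕ) : ℝ) ≤
        C * (x / (Real.log x) ^ 2)) ∧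
    (∀ c : ℝ, c < 1 / 2 → ∃ C : ℝ, ∀ x p : ℕ, 2 ≤ x → p.Prime → 2 < p → (p : ℝ) ≤ (x : ℝ) ^ c →
      (({q : ℕ | q.Prime ∧ p < q ∧ q ≤ x ∧ (q ^ p - 1) / (q - 1) ∣ (p ^ q - 1) / (p - 1)}.ncard : ℕ) : ℝ) ≤
        C * (x / (p * Real.log x))) ∧
    (∃ κ : ℝ, 0 < κ ∧ ∀ c₀ : ℝ, c₀ < 1 / 2 → ∃ C : ℝ, ∀ c : ℝ, 0 < c → c ≤ c₀ → ∀ᶠ x : ℕ in atTop,
      (({w : ℕ × ℕ | w.1.Prime ∧ w.2.Prime ∧ w.1 < w.2 ∧ w.2 ≤ x ∧ (w.1 : ℝ) ≤ (x : ℝ) ^ c ∧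
        (w.2 ^ w.1 - 1) / (w.2 - 1) ∣ (w.1 ^ w.2 - 1) / (w.1 - 1)}.ncard : ℕ) : ℝ) ≤
        C * c ^ κ * (Nat.primeCounting x : ℝ)) := by
  classical
  have h1 : ∀ p x : ℕ, {q : ℕ | q.Prime ∧ p < q ∧ q ≤ x ∧
      (q ^ p - 1) / (q - 1) ∣ (p ^ q - 1) / (p - 1)}.ncard = (FTDens.exc p x).card := by
    intro p x
    rw [← Set.ncard_coe_finset]
    congr 1
    ext q
    unfold FTDens.exc
    simp only [Set.mem_ofPred_eq, Finset.coe_filter, Finset.mem_Icc]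
    constructor
    · rintro ⟨a, b, c, d⟩
      exact ⟨⟨a.one_le, c⟩, a, b, d⟩
    · rintro ⟨⟨_, c⟩, a, b, d⟩
      exact ⟨a, b, c, d⟩
  have h2 : ∀ (x : ℕ) (c : ℝ), {w : ℕ × ℕ | w.1.Prime ∧ w.2.Prime ∧ w.1 < w.2 ∧ w.2 ≤ x ∧
      (w.1 : ℝ) ≤ (x : ℝ) ^ c ∧ (w.2 ^ w.1 - 1) / (w.2 - 1) ∣ (w.1 ^ w.2 - 1) / (w.1 - 1)}.ncard =
      (H24.FU.pairs x c).card := by
    intro x c
    rw [← Set.ncard_coe_finset]
    congr 1
    ext w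
    unfold H24.FU.pairs
    simp only [Set.mem_ofPred_eq, Finset.coe_filter, Finset.mem_product, Finset.mem_Icc]
    constructor
    · rintro ⟨a, b, c, d, e, f⟩
      exact ⟨⟨⟨a.one_le, by omega⟩, b.one_le, d⟩, a, b, c, e, f⟩
    · rintro ⟨⟨_, _, d⟩, a, b, c, e, f⟩
      exact ⟨a, b, c, d, e, f⟩
  refine ⟨fun p hp => ?_, fun c hc => ?_, ?_⟩
  · obtain ⟨C, hC⟩ := H24.FU.fp p hp
    exact ⟨C, fun x hx => by rw [h1]; exact hC x hx⟩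
  · obtain ⟨C, hC⟩ := H24.FU.indiv c hc
    exact ⟨C, fun x p hx hp hp2 hpx => by rw [h1]; exact hC x p hx hp hp2 hpx⟩
  · obtain ⟨κ, hκ, h⟩ := H24.FU.main3
    refine ⟨κ, hκ, fun c₀ hc₀ => ?_⟩
    obtain ⟨C, hC⟩ := h c₀ hc₀
    refine ⟨C, fun c hc hc0 => ?_⟩
    filter_upwards [hC c hc hc0] with x hx
    rw [h2]
    exact hx

end Pool.Agent.Results.MP_470117_nt.FewPairs
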